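import Mathlib

/-!
# The pointwise Barbashin condition does not imply uniform exponential stability

On `ℓ¹(ℕ)` put `A n x = x n • e (n + 1)`. Then `A_m^k x = x k • e m` for `k < m`, so that
the sum over `k ≤ m` of `‖A_m^k x‖` is at most `2 ‖x‖`, while `‖A_m^k‖ = 1` for all `k ≤ m`.
-/

set_option autoImplicit false

namespace Pool.Agent.Results.MP_a62e4d_an.NotUES

open Finset

/-- The evolution operators of the system `x (n + 1) = A n (x n)`: the operator `evol A k j`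
carries the state at time `k` to the state at time `k + j`, that is
`evol A k j = A (k + j - 1) ∘ ... ∘ A k`. -/
def evol {𝕜 X : Type} [RCLike 𝕜] [NormedAddCommGroup X] [NormedSpace 𝕜 X]
    (A : ℕ → X →L[𝕜] X) (k : ℕ) : ℕ → (X →L[𝕜] X)
  | 0 => ContinuousLinearMap.id 𝕜 X
  | j + 1 => (A (k + j)).comp (evol A k j)

/-- `ℓ¹(ℕ)`. -/
abbrev E (𝕜 : Type) [RCLike 𝕜] : Type := lp (fun _ : ℕ => 𝕜) 1

/-- The unit vectors of `ℓ¹`. -/
noncomputable def e (𝕜 : Type) [RCLike 𝕜] (n : ℕ) : E 𝕜 := lp.single 1 n (1 : 𝕜)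

theorem norm_e (𝕜 : Type) [RCLike 𝕜] (n : ℕ) : ‖e 𝕜 n‖ = 1 := by
  unfold e
  rw [lp.norm_single (by norm_num)]
  simp

theorem e_self (𝕜 : Type) [RCLike 𝕜] (n : ℕ) : e 𝕜 n n = 1 := by
  unfold e
  simp

/-- The operator `x ↦ x n • e (n + 1)`. -/
noncomputable def A (𝕜 : Type) [RCLike 𝕜] (n : ℕ) : E 𝕜 →L[𝕜] E 𝕜 :=
  LinearMap.mkContinuous
    { toFun := fun x => x n • e 𝕜 (n + 1)
      map_add' := fun x y => by simp [add_smul]
      map_smul' := fun c x => by simp [mul_smul] } 1 (fun x => by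
        have h1 : ‖x n‖ ≤ ‖x‖ := lp.norm_apply_le_norm (by norm_num) x n
        simpa [norm_smul, norm_e] using h1)

theorem A_apply (𝕜 : Type) [RCLike 𝕜] (n : ℕ) (x : E 𝕜) : A 𝕜 n x = x n • e 𝕜 (n + 1) := rfl

theorem evol_succ (𝕜 : Type) [RCLike 𝕜] (k j : ℕ) (x : E 𝕜) :
    evol (A 𝕜) k (j + 1) x = x k • e 𝕜 (k + j + 1) := by
  induction j with
  | zero => simp [evol, A_apply]
  | succ j ih =>
    have : evol (A 𝕜) k (j + 1 + 1) x = A 𝕜 (k + (j + 1)) (evol (A 𝕜) k (j + 1) x) := rfl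
    rw [this, ih, map_smul, A_apply, ← add_assoc, e_self, one_smul]

theorem sum_le (𝕜 : Type) [RCLike 𝕜] (x : E 𝕜) (s : Finset ℕ) : ∑ k ∈ s, ‖x k‖ ≤ ‖x‖ := by
  have h := lp.sum_rpow_le_norm_rpow (p := 1) (by norm_num) x s
  simpa using h

theorem result (𝕜 : Type) [RCLike 𝕜] :
    ∃ (X : Type) (_ : NormedAddCommGroup X) (_ : NormedSpace 𝕜 X) (_ : CompleteSpace X)
      (A : ℕ → X →L[𝕜] X),
      (∃ B : ℝ, 1 ≤ B ∧ ∀ (m : ℕ) (x : X),
        ∑ k ∈ range (m + 1), ‖evol A k (m - k) x‖ ≤ B * ‖x‖) ∧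
      ¬ ∃ N ν : ℝ, 1 ≤ N ∧ 0 < ν ∧ ∀ (m k : ℕ), k ≤ m → ∀ x : X,
        ‖evol A k (m - k) x‖ ≤ N * Real.exp (-ν * ((m : ℝ) - (k : ℝ))) * ‖x‖ := by
  refine ⟨E 𝕜, inferInstance, inferInstance, inferInstance, A 𝕜, ⟨2, by norm_num, ?_⟩, ?_⟩
  · intro m x
    rw [sum_range_succ]
    have h1 : ∑ k ∈ range m, ‖evol (A 𝕜) k (m - k) x‖ ≤ ‖x‖ := by
      calc ∑ k ∈ range m, ‖evol (A 𝕜) k (m - k) x‖ = ∑ k ∈ range m, ‖x k‖ := by
            refine sum_congr rfl fun k hk => ?_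
            obtain ⟨j, hj⟩ : ∃ j, m - k = j + 1 :=
              ⟨m - k - 1, by have := mem_range.1 hk; omega⟩
            rw [hj, evol_succ, norm_smul, norm_e, mul_one]
        _ ≤ ‖x‖ := sum_le 𝕜 x _
    have h2 : ‖evol (A 𝕜) m (m - m) x‖ = ‖x‖ := by simp [evol]
    rw [h2]; linarith
  · rintro ⟨N, ν, hN, hν, h⟩
    obtain ⟨n, hn⟩ : ∃ n : ℕ, N / ν < n := exists_nat_gt _
    have h3 := h (n + 1) 0 (Nat.zero_le _) (e 𝕜 0)
    rw [Nat.sub_zero, evol_succ, norm_smul, norm_e, norm_e, e_self, norm_one] at h3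
    have h4 : N < ν * ((n + 1 : ℕ) : ℝ) := by
      rw [div_lt_iff₀ hν] at hn
      push_cast
      nlinarith
    have h5 : ν * ((n + 1 : ℕ) : ℝ) < Real.exp (ν * ((n + 1 : ℕ) : ℝ)) := by
      have := Real.add_one_le_exp (ν * ((n + 1 : ℕ) : ℝ))
      linarith
    have h6 : N * Real.exp (-(ν * ((n + 1 : ℕ) : ℝ))) < 1 := by
      rw [Real.exp_neg, ← div_eq_mul_inv, div_lt_one (Real.exp_pos _)]
      linarith
    have h7 : -ν * (((n + 1 : ℕ) : ℝ) - ((0 : ℕ) : ℝ)) = -(ν * ((n + 1 : ℕ) : ℝ)) := by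
      simp
    rw [h7] at h3
    linarith

end Pool.Agent.Results.MP_a62e4d_an.NotUES
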